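import Mathlib

set_option autoImplicit false

open Pointwise Topology

namespace Pool.Agent.Results.MP_5bfb0a_al.CommensuratedCommutes

universe u

section

variable {Γ : Type u} [Group Γ]

/-- `A Λ n` is the set of `g` for which `n` elements of `Λ` lie in distinct right cosets of
`Λ ∩ g⁻¹ Λ g`. -/
private def A (Λ : Subgroup Γ) (n : ℕ) : Set Γ :=
  {g | ∃ d : Fin n → Γ, (∀ i, d i ∈ Λ) ∧ ∀ i j, i ≠ j → g * (d i * (d j)⁻¹) * g⁻¹ ∉ Λ}

private theorem zero_mem_A (Λ : Subgroup Γ) (g : Γ) : g ∈ A Λ 0 :=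
  ⟨fun i => i.elim0, fun i => i.elim0, fun i => i.elim0⟩

/-- If no family of `k + 1` elements is separated by `g` and `d` is a separated family of `k`
elements, then `g * l` lies in `Λ * (g * d i)` for some `i`. -/
private theorem cover {Λ : Subgroup Γ} {k : ℕ} {g : Γ} (hg : g ∉ A Λ (k + 1))
    {d : Fin k → Γ} (hd : ∀ i, d i ∈ Λ)
    (hsep : ∀ i j, i ≠ j → g * (d i * (d j)⁻¹) * g⁻¹ ∉ Λ) {l : Γ} (hl : l ∈ Λ) :
    ∃ i, g * l * (g * d i)⁻¹ ∈ Λ := by
  by_contra hcon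
  push Not at hcon
  apply hg
  refine ⟨Fin.cons l d, ?_, ?_⟩
  · intro i
    refine Fin.cases ?_ ?_ i
    · exact hl
    · intro i; exact hd i
  · intro i j
    refine Fin.cases ?_ ?_ i
    · refine Fin.cases ?_ ?_ j
      · intro h; exact absurd rfl h
      · intro j _ hmem
        apply hcon j
        simp only [Fin.cons_zero, Fin.cons_succ] at hmem
        have : g * l * (g * d j)⁻¹ = g * (l * (d j)⁻¹) * g⁻¹ := by group
        rw [this]; exact hmem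
    · intro i
      refine Fin.cases ?_ ?_ j
      · intro _ hmem
        apply hcon i
        simp only [Fin.cons_zero, Fin.cons_succ] at hmem
        have : g * l * (g * d i)⁻¹ = (g * (d i * l⁻¹) * g⁻¹)⁻¹ := by group
        rw [this]; exact Λ.inv_mem hmem
      · intro j hij hmem
        simp only [Fin.cons_succ] at hmem
        exact hsep i j (fun h => hij (by rw [h])) hmem

private theorem exists_not_mem_A {Λ : Subgroup Γ}
    (hΛ : ∀ g : Γ, (Λ.map (MulAut.conj g).toMonoidHom).relIndex Λ ≠ 0) (g : Γ) :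
    ∃ n, g ∉ A Λ n := by
  let K : Subgroup Λ := (Λ.map (MulAut.conj g⁻¹).toMonoidHom).subgroupOf Λ
  have hK : K.index ≠ 0 := hΛ g⁻¹
  have hfin : K.FiniteIndex := ⟨hK⟩
  have hmemK : ∀ x : Λ, x ∈ K → g * (x : Γ) * g⁻¹ ∈ Λ := by
    intro x hx
    rw [Subgroup.mem_subgroupOf] at hx
    obtain ⟨y, hy, hxy⟩ := hx
    have : (x : Γ) = g⁻¹ * y * g := by
      rw [← hxy]
      simp
    rw [this]
    have h2 : g * (g⁻¹ * y * g) * g⁻¹ = y := by group
    rw [h2]; exact hy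
  refine ⟨K.index + 1, ?_⟩
  rintro ⟨d, hd, hsep⟩
  have hinj : Function.Injective
      (fun i : Fin (K.index + 1) => (QuotientGroup.mk (⟨d i, hd i⟩⁻¹ : Λ) : Λ ⧸ K)) := by
    intro i j hij
    by_contra hne
    have h := QuotientGroup.eq.1 hij
    apply hsep i j hne
    have h3 := hmemK _ h
    simpa using h3
  have hle := Nat.card_le_card_of_injective _ hinj
  rw [Nat.card_eq_fintype_card, Fintype.card_fin] at hle
  change K.index + 1 ≤ K.index at hle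
  omega

end

variable {Γ : Type u} [Group Γ] [TopologicalSpace Γ] [IsTopologicalGroup Γ]

private theorem isOpen_sep {Λ : Subgroup Γ} (hcl : IsClosed (Λ : Set Γ)) {n : ℕ}
    (d : Fin n → Γ) : IsOpen {g : Γ | ∀ i j, i ≠ j → g * (d i * (d j)⁻¹) * g⁻¹ ∉ Λ} := by
  have h : {g : Γ | ∀ i j, i ≠ j → g * (d i * (d j)⁻¹) * g⁻¹ ∉ Λ} =
      ⋂ i : Fin n, ⋂ j : Fin n, {g : Γ | i ≠ j → g * (d i * (d j)⁻¹) * g⁻¹ ∉ Λ} := by
    ext g; simp
  rw [h]
  refine isOpen_iInter_of_finite fun i => isOpen_iInter_of_finite fun j => ?_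
  by_cases hij : i = j
  · simp [hij]
  · have : {g : Γ | i ≠ j → g * (d i * (d j)⁻¹) * g⁻¹ ∉ Λ} =
        (fun g : Γ => g * (d i * (d j)⁻¹) * g⁻¹) ⁻¹' ((Λ : Set Γ)ᶜ) := by
      ext g; simp [hij]
    rw [this]
    exact hcl.isOpen_compl.preimage (by fun_prop)

private theorem isOpen_A {Λ : Subgroup Γ} (hcl : IsClosed (Λ : Set Γ)) (n : ℕ) :
    IsOpen (A Λ n) := by
  have h : A Λ n = ⋃ d : {d : Fin n → Γ // ∀ i, d i ∈ Λ},
      {g : Γ | ∀ i j, i ≠ j → g * (d.1 i * (d.1 j)⁻¹) * g⁻¹ ∉ Λ} := by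
    ext g
    simp only [A, Set.mem_ofPred_eq, Set.mem_iUnion, Subtype.exists, exists_prop]
  rw [h]
  exact isOpen_iUnion fun d => isOpen_sep hcl d.1

/-- Local statement: near some point `u₀` the cosets can be represented by a fixed finite set. -/
private theorem local_cover [LocallyCompactSpace Γ] [T2Space Γ] {Λ : Subgroup Γ}
    (hcl : IsClosed (Λ : Set Γ))
    (hΛ : ∀ g : Γ, (Λ.map (MulAut.conj g).toMonoidHom).relIndex Λ ≠ 0) :
    ∃ u₀ : Γ, ∃ K ∈ 𝓝 u₀, ∃ C : Set Γ, IsCompact C ∧ K * (Λ : Set Γ) ⊆ (Λ : Set Γ) * C := by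
  have hU : ⋃ n, (A Λ n)ᶜ = Set.univ := by
    apply Set.eq_univ_of_forall
    intro g
    obtain ⟨n, hn⟩ := exists_not_mem_A hΛ g
    exact Set.mem_iUnion.2 ⟨n, hn⟩
  have hex : ∃ n, (interior (A Λ n)ᶜ).Nonempty :=
    nonempty_interior_of_iUnion_of_closed (fun n => (isOpen_A hcl n).isClosed_compl) hU
  classical
  let m := Nat.find hex
  have hm : (interior (A Λ m)ᶜ).Nonempty := Nat.find_spec hex
  have hm0 : m ≠ 0 := by
    intro h0
    rw [h0] at hm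
    obtain ⟨g, hg⟩ := hm
    exact interior_subset hg (zero_mem_A Λ g)
  obtain ⟨k, hk⟩ := Nat.exists_eq_succ_of_ne_zero hm0
  have hmin : ¬ (interior (A Λ k)ᶜ).Nonempty := Nat.find_min hex (by
    show k < m
    omega)
  have hdense : Dense (A Λ k) := by
    have h1 : interior (A Λ k)ᶜ = ∅ := Set.not_nonempty_iff_eq_empty.1 hmin
    have h2 := interior_eq_empty_iff_dense_compl.1 h1
    rwa [compl_compl] at h2
  rw [hk] at hm
  obtain ⟨u₀, hu₀, hu₀'⟩ := hdense.inter_open_nonempty _ isOpen_interior hm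
  obtain ⟨d, hd, hsep⟩ := hu₀'
  have hO : IsOpen (interior (A Λ (k + 1))ᶜ ∩
      {g : Γ | ∀ i j, i ≠ j → g * (d i * (d j)⁻¹) * g⁻¹ ∉ Λ}) :=
    isOpen_interior.inter (isOpen_sep hcl d)
  obtain ⟨K, hK, hKsub, hKc⟩ := local_compact_nhds (hO.mem_nhds ⟨hu₀, hsep⟩)
  refine ⟨u₀, K, hK, K * Set.range d, hKc.mul (Set.finite_range d).isCompact, ?_⟩
  rintro _ ⟨g, hg, l, hl, rfl⟩
  obtain ⟨h1, h2⟩ := hKsub hg
  obtain ⟨i, hi⟩ := cover (interior_subset h1) hd h2 hl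
  exact ⟨_, hi, g * d i, ⟨g, hg, d i, ⟨i, rfl⟩, rfl⟩, by group⟩

omit [TopologicalSpace Γ] [IsTopologicalGroup Γ] in
/-- Each left translate of `Λ` is covered by finitely many right translates. -/
private theorem point_cover {Λ : Subgroup Γ}
    (hΛ : ∀ g : Γ, (Λ.map (MulAut.conj g).toMonoidHom).relIndex Λ ≠ 0) (g : Γ) :
    ∃ F : Set Γ, F.Finite ∧ ∀ l ∈ Λ, g * l ∈ (Λ : Set Γ) * F := by
  classical
  have hex := exists_not_mem_A hΛ g
  let m := Nat.find hex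
  have hm : g ∉ A Λ m := Nat.find_spec hex
  have hm0 : m ≠ 0 := by
    intro h0
    rw [h0] at hm
    exact hm (zero_mem_A Λ g)
  obtain ⟨k, hk⟩ := Nat.exists_eq_succ_of_ne_zero hm0
  have hmin : g ∈ A Λ k := by
    by_contra hcon
    exact Nat.find_min hex (show k < m by omega) hcon
  obtain ⟨d, hd, hsep⟩ := hmin
  rw [hk] at hm
  refine ⟨Set.range (fun i => g * d i), Set.finite_range _, ?_⟩
  intro l hl
  obtain ⟨i, hi⟩ := cover hm hd hsep hl
  exact ⟨_, hi, g * d i, ⟨i, rfl⟩, by group⟩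

private theorem one_side [LocallyCompactSpace Γ] [T2Space Γ] {Λ : Subgroup Γ}
    (hcl : IsClosed (Λ : Set Γ))
    (hΛ : ∀ g : Γ, (Λ.map (MulAut.conj g).toMonoidHom).relIndex Λ ≠ 0)
    {C : Set Γ} (hC : IsCompact C) :
    ∃ C' : Set Γ, IsCompact C' ∧ C * (Λ : Set Γ) ⊆ (Λ : Set Γ) * C' := by
  obtain ⟨u₀, K, hK, D, hD, hKD⟩ := local_cover hcl hΛ
  refine hC.induction_on (p := fun S => ∃ C' : Set Γ, IsCompact C' ∧
    S * (Λ : Set Γ) ⊆ (Λ : Set Γ) * C') ?_ ?_ ?_ ?_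
  · exact ⟨∅, isCompact_empty, by simp⟩
  · rintro s t hst ⟨C', h1, h2⟩
    exact ⟨C', h1, (Set.mul_subset_mul_right hst).trans h2⟩
  · rintro s t ⟨C1, h1, h2⟩ ⟨C2, h3, h4⟩
    refine ⟨C1 ∪ C2, h1.union h3, ?_⟩
    rw [Set.union_mul, Set.mul_union]
    exact Set.union_subset_union h2 h4
  · intro x _
    let g := x * u₀⁻¹
    obtain ⟨F, hF, hgF⟩ := point_cover hΛ g
    refine ⟨(fun y => g⁻¹ * y) ⁻¹' K, mem_nhdsWithin_of_mem_nhds ?_, F * D,
      hF.isCompact.mul hD, ?_⟩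
    · have hcont : Continuous (fun y : Γ => g⁻¹ * y) := by fun_prop
      apply hcont.continuousAt.preimage_mem_nhds
      have : g⁻¹ * x = u₀ := by
        show (x * u₀⁻¹)⁻¹ * x = u₀
        group
      rw [this]; exact hK
    · rintro _ ⟨y, hy, l, hl, rfl⟩
      obtain ⟨l', hl', c, hc, hlc⟩ := hKD ⟨g⁻¹ * y, hy, l, hl, rfl⟩
      obtain ⟨l'', hl'', f, hf, hff⟩ := hgF l' hl'
      refine ⟨l'', hl'', f * c, ⟨f, hf, c, hc, rfl⟩, ?_⟩
      have e1 : l' * c = g⁻¹ * y * l := hlc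
      have e2 : l'' * f = g * l' := hff
      show l'' * (f * c) = y * l
      rw [← mul_assoc, e2, mul_assoc, e1]
      group

/-- In a locally compact Hausdorff group, every closed commensurated subgroup almost commutes
with compacts. -/
theorem result :
    ∀ (Γ : Type u) [Group Γ] [TopologicalSpace Γ] [IsTopologicalGroup Γ]
      [LocallyCompactSpace Γ] [T2Space Γ] (Λ : Subgroup Γ),
      IsClosed (Λ : Set Γ) →
      (∀ g : Γ, (Λ.map (MulAut.conj g).toMonoidHom).relIndex Λ ≠ 0) →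
      ∀ C : Set Γ, IsCompact C →
        ∃ C' : Set Γ, IsCompact C' ∧
          C * (Λ : Set Γ) ⊆ (Λ : Set Γ) * C' ∧ (Λ : Set Γ) * C ⊆ C' * (Λ : Set Γ) := by
  intro Γ _ _ _ _ _ Λ hcl hΛ C hC
  obtain ⟨C₁, h1, h2⟩ := one_side hcl hΛ hC
  obtain ⟨C₂, h3, h4⟩ := one_side hcl hΛ hC.inv
  refine ⟨C₁ ∪ C₂⁻¹, h1.union h3.inv, ?_, ?_⟩
  · exact h2.trans (Set.mul_subset_mul_left Set.subset_union_left)
  · refine Set.Subset.trans ?_ (Set.mul_subset_mul_right Set.subset_union_right)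
    rintro _ ⟨l, hl, c, hc, rfl⟩
    obtain ⟨l', hl', c', hc', h5⟩ := h4 ⟨c⁻¹, by simpa using hc, l⁻¹, Λ.inv_mem hl, rfl⟩
    have h6 : l' * c' = c⁻¹ * l⁻¹ := h5
    refine ⟨c'⁻¹, by simpa using hc', l'⁻¹, Λ.inv_mem hl', ?_⟩
    show c'⁻¹ * l'⁻¹ = l * c
    rw [← mul_inv_rev, h6]
    group

end Pool.Agent.Results.MP_5bfb0a_al.CommensuratedCommutes
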